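import Pool.Agent.Lib.MP_d55432_al.G2.Iface2
import Pool.Agent.Lib.MP_d55432_al.G2.Reg
import Pool.Agent.Lib.MP_d55432_al.G2.H64.EXW1

/-!
# G2: EXW2. The equivariant map for the wall `(1, -1, 0)`
-/

namespace Pool.Agent.Lib.MP_d55432_al.G2.H67

open Matrix LieAlgebra Pool.Agent.Lib.MP_d55432_al.G2

attribute [local instance 100] LieRing.ofAssociativeRing

section

variable {K : Type*} [Field K]

theorem as3_first (x y z : V7 K) : bb (as3 x y z) x = 0 := by
  simp [as3, br, bb]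
  ring

theorem as3_second (x y z : V7 K) : bb (as3 x y z) y = 0 := by
  simp [as3, br, bb]
  ring

theorem as3_br (x y z : V7 K) : bb (as3 x y z) (br x y) = 0 := by
  simp [as3, br, bb]
  ring

theorem DD_quad (e f g : V7 K) (b c : K) :
    DD (b • f + c • g) (br e (b • f + c • g)) = (b * b) • DD f (br e f) +
      (b * c) • (DD f (br e g) + DD g (br e f)) + (c * c) • DD g (br e g) := by
  rw [br_add_right, br_smul_right, br_smul_right, DD_add_left, DD_add_right, DD_add_right,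
    DD_smul_left, DD_smul_left, DD_smul_left, DD_smul_left, DD_smul_right, DD_smul_right,
    DD_smul_right, DD_smul_right]
  simp only [smul_add, smul_smul]
  rw [mul_comm c b]
  abel

theorem qq_comb (f g : V7 K) (b c : K) :
    qq (b • f + c • g) = b ^ 2 * qq f + c ^ 2 * qq g + b * c * bb f g := by
  simp [qq, bb]
  ring

theorem bb_comb (e f g : V7 K) (b c : K) :
    bb e (b • f + c • g) = b * bb e f + c * bb e g := by
  simp [bb]
  ring

theorem bb_comb2 (f g : V7 K) (b c d : K) :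
    bb (b • f + c • g) (b • f + d • g) =
      b * b * bb f f + (b * d + b * c) * bb f g + c * d * bb g g := by
  simp [bb]
  ring

theorem br_comb2 (f g : V7 K) (b c d : K) :
    br (b • f + c • g) (b • f + d • g) = (b * d - b * c) • br f g := by
  rw [br_add_left, br_add_right, br_add_right, br_smul_left, br_smul_left, br_smul_left,
    br_smul_left, br_smul_right, br_smul_right, br_smul_right, br_smul_right, br_self, br_self,
    br_swap f g]
  simp only [smul_zero, smul_neg, smul_smul, sub_smul]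
  rw [mul_comm c b]
  abel

theorem bb_smul_r (c : K) (x y : V7 K) : bb x (c • y) = c * bb x y := by
  simp [bb]
  ring

/-- The value at generic vectors. -/
theorem w2_conj [IsAlgClosed K] [CharZero K] (hP : PTYPE_S K) {f g e : V7 K} (hfg : bb f g = 0)
    (hef : bb e f = 0) (heg : bb e g = 0) (hb : bb e (br f g) = 0) (qf : qq f ≠ 0)
    (qg : qq g ≠ 0) (qe : qq e ≠ 0) : ∃ s : K, s ≠ 0 ∧ Cj (s • TT 1 (-1)) (W2M f g e) := by
  obtain ⟨a, ha⟩ := IsAlgClosed.exists_pow_nat_eq (qq f) (n := 2) two_pos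
  obtain ⟨b, hb'⟩ := IsAlgClosed.exists_pow_nat_eq (qq g) (n := 2) two_pos
  have a0 : a ≠ 0 := by rintro rfl; exact qf (by rw [← ha]; ring)
  have b0 : b ≠ 0 := by rintro rfl; exact qg (by rw [← hb']; ring)
  have q1 : qq (b • f + a • g) = 2 * (a * b) ^ 2 := by
    rw [qq_comb, hfg, ← ha, ← hb']
    ring
  have q2 : qq (b • f + (-a) • g) = 2 * (a * b) ^ 2 := by
    rw [qq_comb, hfg, ← ha, ← hb']
    ring
  have hn : (2 : K) * (a * b) ^ 2 ≠ 0 :=
    mul_ne_zero two_ne_zero (pow_ne_zero 2 (mul_ne_zero a0 b0))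
  obtain ⟨s, hs, hC⟩ := hP 1 (-1) e (b • f + a • g) (b • f + (-a) • g)
    (by rw [bb_comb2, hfg, bb_self, bb_self, ← ha, ← hb']; ring)
    (by rw [bb_comb, hef, heg]; ring) (by rw [bb_comb, hef, heg]; ring)
    (by rw [br_comb2, bb_smul_r, hb, mul_zero]) qe (by rw [q1]; exact hn) (by rw [q2]; exact hn)
  have hP0 : P0 1 (-1) e (b • f + a • g) (b • f + (-a) • g) =
      (4 * (a * b) ^ 3) • W2M f g e := by
    rw [P0, q1, q2, DD_quad, DD_quad, W2M]
    simp only [smul_add, smul_smul]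
    match_scalars <;> ring
  rw [hP0] at hC
  have hc : (4 : K) * (a * b) ^ 3 ≠ 0 :=
    mul_ne_zero (by norm_num) (pow_ne_zero 3 (mul_ne_zero a0 b0))
  obtain ⟨u, v, H, hX⟩ := hC
  refine ⟨(4 * (a * b) ^ 3)⁻¹ * s, mul_ne_zero (inv_ne_zero hc) hs, u, v, H, ?_⟩
  have h1 : W2M f g e = (4 * (a * b) ^ 3)⁻¹ • ((4 * (a * b) ^ 3) • W2M f g e) := by
    rw [smul_smul, inv_mul_cancel₀ hc, one_smul]
  rw [h1, hX, ← smul_smul, Matrix.mul_smul u (4 * (a * b) ^ 3)⁻¹, Matrix.smul_mul]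

/-- The second vector. -/
def gg (p : PT K 4) : V7 K :=
  bb (p.1 0) (p.1 2) • p.1 1 - bb (p.1 0) (p.1 1) • p.1 2

theorem bb_gg (p : PT K 4) : bb (p.1 0) (gg p) = 0 := by
  have h : ∀ x y z : V7 K, bb x (bb x z • y - bb x y • z) = 0 := by
    intro x y z
    simp only [bb, Pi.sub_apply, Pi.smul_apply, smul_eq_mul]
    ring
  exact h _ _ _

/-- The map. -/
def WM (p : PT K 4) : M7 K := W2M (p.1 0) (gg p) (as3 (p.1 0) (gg p) (p.1 3))

theorem vc_gg (hD : DER_S K) : VC 3 (gg : PT K 4 → V7 K) :=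
  VC.sub ((VC.smul (SC.bb hD (VC.coord 0) (VC.coord 2)) (VC.coord 1)).congr (by norm_num))
    ((VC.smul (SC.bb hD (VC.coord 0) (VC.coord 1)) (VC.coord 2)).congr (by norm_num))

theorem vc_e (hD : DER_S K) : VC 5 (fun p : PT K 4 => as3 (p.1 0) (gg p) (p.1 3)) :=
  (VC.as3 (VC.coord 0) (vc_gg hD) (VC.coord 3)).congr (by norm_num)

theorem mc_w (hD : DER_S K) : MC 9 (WM : PT K 4 → M7 K) :=
  MC.add ((MC.DD hD (VC.coord 0) (VC.br (vc_e hD) (vc_gg hD))).congr (by norm_num))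
    ((MC.DD hD (vc_gg hD) (VC.br (vc_e hD) (VC.coord 0))).congr (by norm_num))

theorem mem_w (hD : DER_S K) (p : PT K 4) : WM p ∈ g2 K := (g2 K).add_mem (hD.1 _ _) (hD.1 _ _)

/-- The generic condition. -/
def dl (p : PT K 4) : K := qq (p.1 0) * qq (gg p) * qq (as3 (p.1 0) (gg p) (p.1 3))

theorem dl_poly (hD : DER_S K) : (dl : PT K 4 → K) ∈ PF K 4 :=
  (PF K 4).mul_mem ((PF K 4).mul_mem (SC.qq hD (VC.coord 0)).poly (SC.qq hD (vc_gg hD)).poly)
    (SC.qq hD (vc_e hD)).poly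

theorem dl_conj [IsAlgClosed K] [CharZero K] (hP : PTYPE_S K) {p : PT K 4} (hp : dl p ≠ 0) :
    ∃ s : K, s ≠ 0 ∧ Cj (s • TT 1 (-1)) (WM p) := by
  have h1 := left_ne_zero_of_mul hp
  exact w2_conj hP (bb_gg p) (as3_first _ _ _) (as3_second _ _ _) (as3_br _ _ _)
    (left_ne_zero_of_mul h1) (right_ne_zero_of_mul h1) (right_ne_zero_of_mul hp)

theorem dl_ne [CharZero K] :
    dl ((![ee 0, ee 0, ee 1 + ee 4, ee 2 + ee 5], 0) : PT K 4) ≠ 0 := by
  have e1 : gg ((![ee 0, ee 0, ee 1 + ee 4, ee 2 + ee 5], 0) : PT K 4) =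
      ![0, -2, 0, 0, -2, 0, 0] := by
    unfold gg
    funext i
    fin_cases i <;> simp [bb, ee]
  have e2 : as3 (ee 0 : V7 K) ![0, -2, 0, 0, -2, 0, 0] (ee 2 + ee 5) =
      ![0, 0, 0, -24, 0, 0, -24] := by
    funext i
    fin_cases i <;> simp [as3, br, ee] <;> norm_num
  unfold dl
  rw [e1]
  change qq (ee 0 : V7 K) * qq (![0, -2, 0, 0, -2, 0, 0] : V7 K) *
    qq (as3 (ee 0 : V7 K) ![0, -2, 0, 0, -2, 0, 0] (ee 2 + ee 5)) ≠ 0
  rw [e2]
  simp [qq, ee]

/-- The values at special vectors. -/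
theorem w_sp (c : V7 K) (h4 : c 4 = 0) :
    WM ((![ee 1, c, ee 4, ee 4], 0) : PT K 4) = W2M (ee 1) c (as3 (ee 1) c (ee 4)) := by
  have e1 : gg ((![ee 1, c, ee 4, ee 4], 0) : PT K 4) = c := by
    unfold gg
    change bb (ee 1 : V7 K) (ee 4) • c - bb (ee 1 : V7 K) c • ee 4 = c
    have h2 : bb (ee 1 : V7 K) (ee 4) = 1 := by simp [bb, ee]
    have h3 : bb (ee 1 : V7 K) c = 0 := by simp [bb, ee, h4]
    rw [h2, h3, one_smul, zero_smul, sub_zero]
  unfold WM
  rw [e1]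
  rfl

theorem mv0 (z : V7 K) : W2M (ee 1) (ee 2) (as3 (ee 1) (ee 2) (ee 4)) *ᵥ z =
    ![0, 0, 72 * z 3, 0, 0, 0, -(72 * z 5)] := by
  have e1 : as3 (ee 1 : V7 K) (ee 2) (ee 4) = ![0, 0, -6, 0, 0, 0, 0] := by
    funext i
    fin_cases i <;> simp [as3, br, ee] <;> norm_num
  rw [e1, W2M, add_mulVec, H64.DD_mulVec, H64.DD_mulVec]
  funext i
  fin_cases i <;> simp [br, ee] <;> ring

theorem mv1 (z : V7 K) :
    W2M (ee 1) (ee 0 + ee 2) (as3 (ee 1) (ee 0 + ee 2) (ee 4)) *ᵥ z =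
      ![72 * z 3, 72 * z 5, 72 * z 3 - 72 * z 4, 0, 0, 0, -(144 * z 0) - 72 * z 5] := by
  have e1 : as3 (ee 1 : V7 K) (ee 0 + ee 2) (ee 4) = ![0, 0, -6, 0, 0, 0, 0] := by
    funext i
    fin_cases i <;> simp [as3, br, ee] <;> norm_num
  rw [e1, W2M, add_mulVec, H64.DD_mulVec, H64.DD_mulVec]
  funext i
  fin_cases i <;> simp [br, ee] <;> ring

theorem mv2 (z : V7 K) :
    W2M (ee 1) (ee 2 + ee 5) (as3 (ee 1) (ee 2 + ee 5) (ee 4)) *ᵥ z =
      ![72 * z 4, -(144 * z 0), 72 * z 3, 0, 0, 72 * z 3, -(72 * z 2) - 72 * z 5] := by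
  have e1 : as3 (ee 1 : V7 K) (ee 2 + ee 5) (ee 4) = ![0, 0, -6, 0, 0, 6, 0] := by
    funext i
    fin_cases i <;> simp [as3, br, ee] <;> norm_num
  rw [e1, W2M, add_mulVec, H64.DD_mulVec, H64.DD_mulVec]
  funext i
  fin_cases i <;> simp [br, ee] <;> ring

end

/-- **EXW2** -/
theorem exw2 (K : Type*) [Field K] [IsAlgClosed K] [CharZero K] (hD : DER_S K)
    (hP : PTYPE_S K) : EXW2_S K := by
  refine ⟨4, 9, fun a y => ⟨WM (a, y), mem_w hD (a, y)⟩, (mc_w hD).isCov (by norm_num) (mem_w hD),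
    ?_, ?_, ?_⟩
  · intro g hg hY a y
    exact generic_vanish (n := 4) (M := fun p : PT K 4 => (⟨WM p, mem_w hD p⟩ : g2 K))
      (mc_w hD).poly (dl_poly hD) ⟨_, dl_ne⟩ hg (fun p hp => hY _ (dl_conj hP hp)) (a, y)
  · exact ⟨_, _, dl_conj hP dl_ne⟩
  · have key : ∀ (c : V7 K) (r : ℕ), c 4 = 0 →
        W2M (ee 1) c (as3 (ee 1) c (ee 4)) ≠ 0 →
        W2M (ee 1) c (as3 (ee 1) c (ee 4)) ^ 3 = 0 →
        (W2M (ee 1) c (as3 (ee 1) c (ee 4)) * W2M (ee 1) c (as3 (ee 1) c (ee 4))).rank = r →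
        ∃ (a : Fin 4 → V7 K) (y : K), (⟨WM (a, y), mem_w hD (a, y)⟩ : g2 K) ≠ 0 ∧
          (⟨WM (a, y), mem_w hD (a, y)⟩ : g2 K).1 ^ 7 = 0 ∧
          ((⟨WM (a, y), mem_w hD (a, y)⟩ : g2 K).1 *
            (⟨WM (a, y), mem_w hD (a, y)⟩ : g2 K).1).rank = r := by
      intro c r h4 hne h3 hr
      refine ⟨![ee 1, c, ee 4, ee 4], 0, ?_, ?_, ?_⟩
      · intro h0
        apply hne
        rw [← w_sp c h4]
        exact congrArg Subtype.val h0
      · change WM _ ^ 7 = 0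
        rw [w_sp c h4]
        change W2M (ee 1) c (as3 (ee 1) c (ee 4)) ^ (3 + 4) = 0
        rw [pow_add, h3, zero_mul]
      · change Matrix.rank (WM _ * WM _) = r
        rw [w_sp c h4, hr]
    have ne : ∀ (X : M7 K) (z : V7 K) (i : Fin 7), (X *ᵥ z) i ≠ 0 → X ≠ 0 := by
      intro X z i h h0
      apply h
      rw [h0, zero_mulVec]
      rfl
    intro r hr hr5
    simp only [Set.mem_insert_iff, Set.mem_singleton_iff] at hr
    rcases hr with rfl | rfl | rfl | rfl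
    · refine key (ee 2) 0 (by simp [ee]) (ne _ (ee 3) 2 ?_) ?_ ?_
      · rw [mv0]
        simp [ee]
      · refine H64.ext_mv fun z => ?_
        rw [pow_succ, pow_two, ← mulVec_mulVec, ← mulVec_mulVec, mv0, mv0, mv0, zero_mulVec]
        funext i
        fin_cases i <;> simp
      · have h2 : W2M (ee 1 : V7 K) (ee 2) (as3 (ee 1) (ee 2) (ee 4)) *
            W2M (ee 1) (ee 2) (as3 (ee 1) (ee 2) (ee 4)) = 0 := by
          refine H64.ext_mv fun z => ?_
          rw [← mulVec_mulVec, mv0, mv0, zero_mulVec]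
          funext i
          fin_cases i <;> simp
        rw [h2, Matrix.rank_zero]
    · refine key (ee 0 + ee 2) 1 (by simp [ee]) (ne _ (ee 3) 2 ?_) ?_ ?_
      · rw [mv1]
        simp [ee]
      · refine H64.ext_mv fun z => ?_
        rw [pow_succ, pow_two, ← mulVec_mulVec, ← mulVec_mulVec, mv1, mv1, mv1, zero_mulVec]
        funext i
        fin_cases i <;> simp
      · have h2 : W2M (ee 1 : V7 K) (ee 0 + ee 2) (as3 (ee 1) (ee 0 + ee 2) (ee 4)) *
            W2M (ee 1) (ee 0 + ee 2) (as3 (ee 1) (ee 0 + ee 2) (ee 4)) =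
            Matrix.diagonal ![0, 0, 0, 0, 0, 0, -10368] * H64.PM K := by
          refine H64.ext_mv fun z => ?_
          rw [← mulVec_mulVec, ← mulVec_mulVec, mv1, mv1, H64.PM_mulVec]
          funext i
          rw [mulVec_diagonal]
          fin_cases i <;> simp <;> ring
        rw [h2, H64.rank_DP _ {6}]
        · rfl
        · intro i
          fin_cases i <;> simp
    · refine key (ee 2 + ee 5) 2 (by simp [ee]) (ne _ (ee 3) 2 ?_) ?_ ?_
      · rw [mv2]
        simp [ee]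
      · refine H64.ext_mv fun z => ?_
        rw [pow_succ, pow_two, ← mulVec_mulVec, ← mulVec_mulVec, mv2, mv2, mv2, zero_mulVec]
        funext i
        fin_cases i <;> simp
      · have h2 : W2M (ee 1 : V7 K) (ee 2 + ee 5) (as3 (ee 1) (ee 2 + ee 5) (ee 4)) *
            W2M (ee 1) (ee 2 + ee 5) (as3 (ee 1) (ee 2 + ee 5) (ee 4)) =
            Matrix.diagonal ![0, -10368, 0, 0, 0, 0, -10368] * H64.PM K := by
          refine H64.ext_mv fun z => ?_
          rw [← mulVec_mulVec, ← mulVec_mulVec, mv2, mv2, H64.PM_mulVec]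
          funext i
          rw [mulVec_diagonal]
          fin_cases i <;> simp <;> ring
        rw [h2, H64.rank_DP _ {1, 6}]
        · rfl
        · intro i
          fin_cases i <;> simp
    · exfalso
      refine hr5 rfl ?_
      ring

end Pool.Agent.Lib.MP_d55432_al.G2.H67
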